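import Pool.Agent.W952.LP.Stm

/-!
# The distances are computable in the oracle
-/

set_option autoImplicit false

namespace Pool.Agent.W696.LP

open Pool.Agent.Helper227 Pool.Agent.H685R3 Pool.Agent.W952.LP

section prim

variable {α : Type*} [Primcodable α]

theorem pr_pow2 {f : α → ℕ} (hf : Primrec f) : Primrec fun a => 2 ^ f a := by
  have h : Primrec₂ (fun a b : ℕ => a ^ b) := Primrec₂.unpaired'.1 Nat.Primrec.pow
  exact h.comp (Primrec.const 2) hf

theorem pr_nd {f g : α → ℕ} (hf : Primrec f) (hg : Primrec g) : Primrec fun a => nd (f a) (g a) :=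
  Primrec.nat_add.comp (Primrec.nat_sub.comp hf hg) (Primrec.nat_sub.comp hg hf)

theorem pr_dnum {c d : α → ℕ × ℕ × ℕ × ℕ} (hc : Primrec c) (hd : Primrec d) :
    Primrec fun a => dnum (c a) (d a) := by
  have c1 : Primrec fun a => (c a).1 := Primrec.fst.comp hc
  have c2 : Primrec fun a => (c a).2.1 := Primrec.fst.comp (Primrec.snd.comp hc)
  have c3 : Primrec fun a => (c a).2.2.1 :=
    Primrec.fst.comp (Primrec.snd.comp (Primrec.snd.comp hc))
  have c4 : Primrec fun a => (c a).2.2.2 :=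
    Primrec.snd.comp (Primrec.snd.comp (Primrec.snd.comp hc))
  have d1 : Primrec fun a => (d a).1 := Primrec.fst.comp hd
  have d2 : Primrec fun a => (d a).2.1 := Primrec.fst.comp (Primrec.snd.comp hd)
  have d3 : Primrec fun a => (d a).2.2.1 :=
    Primrec.fst.comp (Primrec.snd.comp (Primrec.snd.comp hd))
  have d4 : Primrec fun a => (d a).2.2.2 :=
    Primrec.snd.comp (Primrec.snd.comp (Primrec.snd.comp hd))
  have pc := pr_pow2 c4
  have pd := pr_pow2 d4
  unfold dnum
  refine Primrec₂.natPair.comp ?_ ?_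
  · exact Primrec.nat_max.comp
      (pr_nd (Primrec.nat_mul.comp c1 pd) (Primrec.nat_mul.comp d1 pc))
      (Primrec.nat_max.comp
        (pr_nd (Primrec.nat_mul.comp c2 pd) (Primrec.nat_mul.comp d2 pc))
        (pr_nd (Primrec.nat_mul.comp c3 pd) (Primrec.nat_mul.comp d3 pc)))
  · exact Primrec.nat_sub.comp (pr_pow2 (Primrec.nat_add.comp c4 d4)) (Primrec.const 1)

theorem pr_u1 {f : α → ℕ} (hf : Primrec f) : Primrec fun a => (f a).unpair.1 :=
  Primrec.fst.comp (Primrec.unpair.comp hf)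

theorem pr_u2 {f : α → ℕ} (hf : Primrec f) : Primrec fun a => (f a).unpair.2 :=
  Primrec.snd.comp (Primrec.unpair.comp hf)

theorem pr_cd {nn : ℕ → ℕ} (hn : Primrec nn) {k : α → ℕ} {b : α → Bool} (hk : Primrec k)
    (hb : Primrec b) : Primrec fun a => cd nn (k a) (b a) := by
  have h2 : Primrec fun a => k a / 2 := Primrec.nat_div.comp hk (Primrec.const 2)
  have hz : Primrec fun _ : α => ((0, 0, 0, 0) : ℕ × ℕ × ℕ × ℕ) := Primrec.const _
  have pg : Primrec fun a => ug (k a / 2) := pr_u1 h2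
  have pi : Primrec fun a => ui (k a / 2) := pr_u1 (pr_u2 h2)
  have pm : Primrec fun a => um (k a / 2) := pr_u1 (pr_u2 (pr_u2 (pr_u2 h2)))
  have pl : Primrec fun a => ul (k a / 2) := pr_u1 (pr_u2 (pr_u2 (pr_u2 (pr_u2 h2))))
  have pn : Primrec fun a => nn (ug (k a / 2)) := hn.comp pg
  have p2l : Primrec fun a => 2 * ul (k a / 2) := Primrec.nat_mul.comp (Primrec.const 2) pl
  unfold cd
  refine Primrec.ite ?_ ?_ ?_
  · exact Primrec.eq.comp (Primrec.nat_mod.comp hk (Primrec.const 2)) (Primrec.const 0)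
  · refine Primrec.ite ?_ ?_ hz
    · exact Primrec.nat_le.comp (pr_u1 h2) (pr_pow2 (pr_u2 h2))
    · exact (pr_u1 h2).pair ((Primrec.const 0).pair ((Primrec.const 0).pair (pr_u2 h2)))
  · refine Primrec.ite ?_ ?_ hz
    · exact Primrec.eq.comp hb (Primrec.const true)
    · refine Primrec.pair ?_ (Primrec.pair ?_ (Primrec.pair ?_ ?_))
      · exact pr_pow2 (Primrec.nat_add.comp pn p2l)
      · exact Primrec.nat_mul.comp pm (pr_pow2 pl)
      · exact Primrec.nat_mul.comp pi (Primrec.nat_mul.comp pm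
          (Primrec.nat_sub.comp (pr_pow2 pl) pm))
      · exact Primrec.nat_add.comp (Primrec.nat_add.comp pg pn) p2l

end prim

theorem t_comp : S_comp := by
  intro D nn fl hnn hfl
  have hq := tLe_iff_SI.1 hfl
  unfold CompIn
  have key : SI D fun x : ℕ × ℕ => x.2 ∈ (Part.some
      (dnum (cd nn x.1.unpair.1 (fl (x.1.unpair.1 / 2)))
        (cd nn x.1.unpair.2.unpair.1 (fl (x.1.unpair.2.unpair.1 / 2)))) : Part ℕ) := by
    have h1 : SI D fun x : ℕ × ℕ => ∃ b : Bool × Bool,
        (fl (x.1.unpair.1 / 2) = b.1 ∧ fl (x.1.unpair.2.unpair.1 / 2) = b.2) ∧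
        x.2 = dnum (cd nn x.1.unpair.1 b.1) (cd nn x.1.unpair.2.unpair.1 b.2) := by
      refine SI.ex (p := fun (x : ℕ × ℕ) (b : Bool × Bool) =>
        (fl (x.1.unpair.1 / 2) = b.1 ∧ fl (x.1.unpair.2.unpair.1 / 2) = b.2) ∧
        x.2 = dnum (cd nn x.1.unpair.1 b.1) (cd nn x.1.unpair.2.unpair.1 b.2))
        (SI.and (SI.and ?_ ?_) (SI.of_prim ?_))
      · exact hq.comp (f := fun z : (ℕ × ℕ) × (Bool × Bool) => (z.1.1.unpair.1 / 2, z.2.1))
          ((Primrec.nat_div.comp (pr_u1 (Primrec.fst.comp Primrec.fst)) (Primrec.const 2)).pair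
            (Primrec.fst.comp Primrec.snd))
      · exact hq.comp (f := fun z : (ℕ × ℕ) × (Bool × Bool) => (z.1.1.unpair.2.unpair.1 / 2, z.2.2))
          ((Primrec.nat_div.comp (pr_u1 (pr_u2 (Primrec.fst.comp Primrec.fst)))
            (Primrec.const 2)).pair (Primrec.snd.comp Primrec.snd))
      · exact Primrec.eq.comp (Primrec.snd.comp Primrec.fst)
          (pr_dnum (pr_cd hnn (pr_u1 (Primrec.fst.comp Primrec.fst)) (Primrec.fst.comp Primrec.snd))
            (pr_cd hnn (pr_u1 (pr_u2 (Primrec.fst.comp Primrec.fst)))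
              (Primrec.snd.comp Primrec.snd)))
    refine h1.of_eq fun x => ?_
    rw [Part.mem_some_iff]
    constructor
    · rintro ⟨⟨b1, b2⟩, ⟨h1, h2⟩, h3⟩
      simp only at h1 h2 h3
      rw [h1, h2]
      exact h3
    · intro h
      exact ⟨(_, _), ⟨rfl, rfl⟩, h⟩
  exact SI.iff_recIn.2 key

end Pool.Agent.W696.LP
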