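import Pool.Agent.W297.LP.Stm

/-!
Project LP (helper297), MP_6505eb_co, part FACTS.
-/

set_option autoImplicit false

open Finset

namespace Pool.Agent.W696.LPF

open Pool.Agent.W297.LP

section basics

variable {V : Type} [Fintype V] {W : V → V → ℝ}

theorem ker_co (hW : Ker W) : Ker (co W) := by
  refine ⟨fun x y => ?_, fun x y => ?_⟩
  · unfold co; rw [hW.symm]
  · unfold co
    rcases hW.zo x y with h | h
    · right; rw [h]; norm_num
    · left; rw [h]; norm_num

theorem W_nonneg (hW : Ker W) (x y : V) : 0 ≤ W x y := by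
  rcases hW.zo x y with h | h <;> rw [h] <;> norm_num

theorem ee_nonneg (hW : Ker W) (P Q : Finset V) : 0 ≤ ee W P Q := by
  unfold ee
  exact div_nonneg (Finset.sum_nonneg fun x _ => Finset.sum_nonneg fun y _ => W_nonneg hW x y)
    (by positivity)

theorem ee_mono (hW : Ker W) {P P' Q Q' : Finset V} (hP : P ⊆ P') (hQ : Q ⊆ Q') :
    ee W P Q ≤ ee W P' Q' := by
  unfold ee
  apply div_le_div_of_nonneg_right _ (by positivity)
  refine le_trans (Finset.sum_le_sum fun x _ =>
    Finset.sum_le_sum_of_subset_of_nonneg hQ fun y _ _ => W_nonneg hW x y) ?_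
  exact Finset.sum_le_sum_of_subset_of_nonneg hP fun x _ _ =>
    Finset.sum_nonneg fun y _ => W_nonneg hW x y

theorem ee_symm (hW : Ker W) (P Q : Finset V) : ee W P Q = ee W Q P := by
  unfold ee
  congr 1
  rw [Finset.sum_comm]
  exact Finset.sum_congr rfl fun x _ => Finset.sum_congr rfl fun y _ => hW.symm y x

theorem ee_add_left [DecidableEq V] (W : V → V → ℝ) {P P' : Finset V} (h : Disjoint P P')
    (Q : Finset V) : ee W (P ∪ P') Q = ee W P Q + ee W P' Q := by
  unfold ee
  rw [Finset.sum_union h, add_div]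

theorem ee_add_right [DecidableEq V] (W : V → V → ℝ) {Q Q' : Finset V} (h : Disjoint Q Q')
    (P : Finset V) : ee W P (Q ∪ Q') = ee W P Q + ee W P Q' := by
  unfold ee
  rw [← add_div, ← Finset.sum_add_distrib]
  congr 1
  exact Finset.sum_congr rfl fun x _ => Finset.sum_union h

theorem ee_co (W : V → V → ℝ) (P Q : Finset V) : ee W P Q + ee (co W) P Q = ms P * ms Q := by
  unfold ee ms co
  rw [← add_div, ← Finset.sum_add_distrib]
  have : ∀ x ∈ P, ∑ y ∈ Q, W x y + ∑ y ∈ Q, (1 - W x y) = (Q.card : ℝ) := by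
    intro x _
    rw [← Finset.sum_add_distrib]
    simp
  rw [Finset.sum_congr rfl this, Finset.sum_const, nsmul_eq_mul, div_mul_div_comm, pow_two]

theorem ee_le (hW : Ker W) (P Q : Finset V) : ee W P Q ≤ ms P * ms Q := by
  have h1 := ee_co W P Q
  have h2 := ee_nonneg (ker_co hW) P Q
  linarith

theorem ms_nonneg (P : Finset V) : 0 ≤ ms P := by
  unfold ms; positivity

theorem ms_add [DecidableEq V] {P P' : Finset V} (h : Disjoint P P') :
    ms (P ∪ P') = ms P + ms P' := by
  unfold ms
  rw [Finset.card_union_of_disjoint h]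
  push_cast
  rw [add_div]

theorem ms_univ (h : 0 < Fintype.card V) : ms (univ : Finset V) = 1 := by
  unfold ms
  rw [Finset.card_univ]
  have : (Fintype.card V : ℝ) ≠ 0 := by exact_mod_cast h.ne'
  exact div_self this

theorem sum_dg (W : V → V → ℝ) (P : Finset V) :
    (∑ x ∈ P, dg W x) / (Fintype.card V : ℝ) = ee W P univ := by
  unfold dg ee
  rw [← Finset.sum_div, div_div, pow_two]

theorem cl_mono (W : V → V → ℝ) {D D' : Finset V} (h : D ⊆ D') (k : ℕ) :
    ((cl W D k).card : ℝ) ≤ ((cl W D' k).card : ℝ) := by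
  have : cl W D k ⊆ cl W D' k := by
    intro x hx
    simp only [cl, Finset.mem_filter, Finset.mem_univ, true_and] at hx ⊢
    exact ⟨fun i => h (hx.1 i), hx.2⟩
  exact_mod_cast Finset.card_le_card this

end basics

theorem facts : STur → SFacts := by
  intro hT k hk h hh
  obtain ⟨c, hc, hT⟩ := hT k hk (h / 8) (by positivity)
  refine ⟨min c (h / 8), lt_min hc (by positivity), ?_⟩
  intro V _ _ W D1 D2 hW hV hE
  have hW' := ker_co hW
  set e := min c (h / 8) with he
  have hec : e ≤ c := min_le_left _ _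
  have heh : e ≤ h / 8 := min_le_right _ _
  have hn : (0 : ℝ) ≤ (Fintype.card V : ℝ) ^ k := by positivity
  -- the sets
  set Db := D2 \ D1 with hDb
  set Dr := D1 \ D2 with hDr
  set O := (D1 ∪ D2)ᶜ with hO
  set J := D1 ∩ D2 with hJ
  have dbr : Disjoint Db Dr := by
    rw [Finset.disjoint_left]; intro x; simp [hDb, hDr]; tauto
  have dbo : Disjoint Db O := by
    rw [Finset.disjoint_left]; intro x; simp [hDb, hO]; tauto
  have dro : Disjoint Dr O := by
    rw [Finset.disjoint_left]; intro x; simp [hDr, hO]; tauto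
  have drj : Disjoint Dr J := by
    rw [Finset.disjoint_left]; intro x; simp [hDr, hJ]; tauto
  have c1 : D1ᶜ = Db ∪ O := by ext x; simp [hDb, hO]; tauto
  have c2 : D2ᶜ = Dr ∪ O := by ext x; simp [hDr, hO]; tauto
  have c3 : D1 = Dr ∪ J := by ext x; simp [hDr, hJ]; tauto
  have c4 : (univ : Finset V) = D1ᶜ ∪ D1 := by ext x; simp; tauto
  have dc4 : Disjoint D1ᶜ D1 := by
    rw [Finset.disjoint_left]; intro x; simp
  have c5 : (univ : Finset V) = Db ∪ Dbᶜ := by ext x; simp
  have dc5 : Disjoint Db Dbᶜ := by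
    rw [Finset.disjoint_left]; intro x; simp
  have dbc2 : Disjoint Db D2ᶜ := by
    rw [Finset.disjoint_left]; intro x; simp [hDb]; tauto
  -- sizes
  have hb := ms_nonneg Db
  have hr := ms_nonneg Dr
  have ho := ms_nonneg O
  have hw := ms_nonneg J
  have hwe : ms J ≤ e := hE.cap
  have hsum : ms Db + ms Dr + ms O + ms J = 1 := by
    have h1 := ms_univ hV
    rw [c4, ms_add dc4, c1, ms_add dbo] at h1
    have h2 : ms D1 = ms Dr + ms J := by
      conv_lhs => rw [c3]
      exact ms_add drj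
    rw [h2] at h1
    linarith
  have hu := ms_univ hV
  have hbc : ms Dbᶜ = 1 - ms Db := by
    have h1 := ms_univ hV
    rw [c5, ms_add dc5] at h1
    linarith
  have hc2 : ms D2ᶜ = ms Dr + ms O := by rw [c2, ms_add dro]
  -- Turan
  have tb : ee (co W) Db Db ≤ (1 - mu k) * ms Db ^ 2 + h / 8 :=
    hT V (co W) hW' Db ((cl_mono (co W) Finset.sdiff_subset k).trans
      (hE.c2.trans (mul_le_mul_of_nonneg_right hec hn)))
  have tr : ee W Dr Dr ≤ (1 - mu k) * ms Dr ^ 2 + h / 8 :=
    hT V W hW Dr ((cl_mono W Finset.sdiff_subset k).trans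
      (hE.c1.trans (mul_le_mul_of_nonneg_right hec hn)))
  have tb' : mu k * ms Db ^ 2 - h / 8 ≤ ee W Db Db := by
    have := ee_co W Db Db
    nlinarith
  have tr' : mu k * ms Dr ^ 2 - h / 8 ≤ ee (co W) Dr Dr := by
    have := ee_co W Dr Dr
    nlinarith
  have M1e : (∑ x ∈ D1ᶜ, dg W x) / (Fintype.card V : ℝ) = ee W Db univ + ee W O univ := by
    rw [sum_dg, c1, ee_add_left W dbo]
  have M2e : (∑ x ∈ D2ᶜ, dg (co W) x) / (Fintype.card V : ℝ) =
      ee (co W) Dr univ + ee (co W) O univ := by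
    rw [sum_dg, c2, ee_add_left (co W) dro]
  have l1 : ee W Db Db + ee W Db Dr ≤ ee W Db univ := by
    rw [← ee_add_right W dbr]
    exact ee_mono hW subset_rfl (Finset.subset_univ _)
  have l2 : ee (co W) Dr Db + ee (co W) Dr Dr ≤ ee (co W) Dr univ := by
    rw [← ee_add_right (co W) dbr]
    exact ee_mono hW' subset_rfl (Finset.subset_univ _)
  have l3 : ee W O univ + ee (co W) O univ = ms O := by
    rw [ee_co, hu, mul_one]
  have l4 : ee W Db Dr + ee (co W) Dr Db = ms Db * ms Dr := by
    rw [ee_symm hW' Dr Db, ee_co]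
  have l5 : ee W Db Db + ee W Db D2ᶜ ≤ ee W Db univ := by
    rw [← ee_add_right W dbc2]
    exact ee_mono hW subset_rfl (Finset.subset_univ _)
  have n1 := ee_nonneg hW Db univ
  have n2 := ee_nonneg hW O univ
  have n3 := ee_nonneg hW' Dr univ
  have n4 := ee_nonneg hW' O univ
  rw [M1e, M2e]
  refine ⟨hb, hr, ho, ?_, ?_, ee_nonneg hW' _ _, ee_nonneg hW _ _, by linarith, by linarith,
    ?_, ?_, ?_, ?_, ?_⟩
  · linarith
  · linarith
  · linarith
  · rw [add_comm, ee_co, hc2]
  · linarith
  · have h1 : ee (co W) Db D2ᶜ ≤ ee (co W) D2ᶜ univ := by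
      rw [ee_symm hW' Db D2ᶜ]
      exact ee_mono hW' subset_rfl (Finset.subset_univ _)
    rw [c2, ee_add_left (co W) dro, ← c2] at h1
    exact h1
  · have h1 : ee W univ univ = ee W D1ᶜ univ + ee W D1 univ := by
      conv_lhs => rw [show ee W univ univ = ee W (D1ᶜ ∪ D1) univ from by rw [← c4]]
      exact ee_add_left W dc4 univ
    have h2 : ee W D1ᶜ univ = ee W Db univ + ee W O univ := by
      rw [c1, ee_add_left W dbo]
    have h3 : ee W D1 univ = ee W Dr univ + ee W J univ := by
      conv_lhs => rw [c3]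
      exact ee_add_left W drj univ
    have h4 : ee W J univ ≤ ms J := by
      have := ee_le hW J univ
      rwa [hu, mul_one] at this
    have h5 : ee W Dr univ = ee W Dr Db + ee W Dr Dbᶜ := by
      conv_lhs => rw [c5]
      exact ee_add_right W dc5 Dr
    have h6 : ee W Dr Dbᶜ ≤ ms Dr * (1 - ms Db) := by
      rw [← hbc]; exact ee_le hW _ _
    have h7 : ee W Dr Db ≤ ee W Db D2ᶜ := by
      rw [ee_symm hW Dr Db]
      refine ee_mono hW subset_rfl ?_
      rw [c2]
      exact Finset.subset_union_left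
    have h8 : ms Dr * (1 - ms Db) ≤ (ms Dr + ms O) ^ 2 + ms J := by
      have e1 : 1 - ms Db = ms Dr + ms O + ms J := by linarith
      have e2 : ms Dr ≤ 1 := by linarith
      rw [e1]
      nlinarith [mul_nonneg hr ho, mul_nonneg ho ho, mul_nonneg hw (sub_nonneg.2 e2)]
    linarith

end Pool.Agent.W696.LPF
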